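import Pool.Agent.ASD.Stmts3
import Pool.Agent.Helper33_ASO.NSV
import Pool.Agent.Helper3_ASO.MUL
import Pool.Agent.Helper89_ASO.LBU

/-!
# Squad ASD, row FCD: `fc W x` lies in the ideal of the block `b W` (helper79)
-/

open scoped BigOperators

noncomputable section

namespace Pool.Agent.PP.SD.H79

open Pool.Agent.Helper51_AWC Pool.Agent.Helper79_WRA Pool.Agent.PP Pool.Agent.PP.KF
open Pool.Agent.PP.K9 Pool.Agent.PP.K9.H97 Pool.Agent.PP.H75 Pool.Agent.PP.T3 Pool.Agent.PP.SO

attribute [local instance] Ideal.Quotient.field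

section tools

variable {F G : Type} [Field F] [Group G] [Finite G]

/-- the condition over `γ` in a subgroup -/
theorem gam_H {X V : Subgroup G} (hVX : V ≤ X) (hCX : Subgroup.centralizer (V : Set G) ≤ X)
    {b γ : G → F} (hbg : mulF (br V b) γ = γ) :
    mulF (br (V.subgroupOf X) (fun t : X => b t)) (fun t : X => γ t) = fun t : X => γ t := by
  have h1 : br (V.subgroupOf X) (fun t : X => b t) = fun t : X => br V b t := by
    funext t
    by_cases ht : (t : G) ∈ Subgroup.centralizer (V : Set G)
    · rw [H66.br_of_mem ht, H66.br_of_mem ((cent_sub hVX t).2 ht)]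
    · rw [H66.br_of_not_mem ht, H66.br_of_not_mem (fun h => ht ((cent_sub hVX t).1 h))]
  rw [h1, ← mulF_res X γ (fun x hx => H66.br_of_not_mem (fun h => hx (hCX h))), hbg]

/-- a block of `C(y)` and an idempotent which are both over `g` -/
theorem und_of {ℓ : ℕ} [Fact ℓ.Prime] (hF : GoodF ℓ F) {V : Subgroup G} (hV : IsPGroup ℓ V)
    {y : G} (hyV : y ∈ V) (hVy : V ≤ Cu y) {e b' g : G → F} (he : IsIdem e)
    (hb' : Bx (Cu y) b') (hge : mulF (br V e) g = g) (hgb : mulF (br V b') g = g)
    (hg : g ≠ 0) :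
    mulF (fun t : Cu y => e t) (fun t : Cu y => b' t) = fun t : Cu y => b' t := by
  set a : G → F := PP.ext0 (Cu y) (fun t : Cu y => e t) with ha0
  have hres : (fun t : Cu y => a t) = fun t : Cu y => e t := H46.restr_ext0 _
  have ha : Ix (Cu y) a := by
    refine ⟨fun x hx => H46.ext0_of_not_mem _ hx, ?_⟩
    rw [hres]
    exact T3.H88.idem_cu hF he (T3.H88.el_of_mem hV hyV)
  have hCV : Subgroup.centralizer (V : Set G) ≤ Cu y := T3.H88.cent_le_cu hyV
  have hbr : br V a = br V e := by
    funext x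
    by_cases hx : x ∈ Subgroup.centralizer (V : Set G)
    · rw [H66.br_of_mem hx, H66.br_of_mem hx, ha0, H46.ext0_of_mem _ (hCV hx)]
    · rw [H66.br_of_not_mem hx, H66.br_of_not_mem hx]
  rcases hb'.dich' ha with h | h
  · have h2 : mulF a b' = b' := by rw [ha.comm hb'.ix, h]
    have h3 := mulF_res (Cu y) b' ha.supp
    rw [h2, hres] at h3
    exact h3.symm
  · exfalso
    apply hg
    have h1 := SO.H89.br_mul' hF hV hVy hb'.ix ha
    rw [h, T3.H88.br_zero] at h1
    calc g = mulF (br V b') (mulF (br V a) g) := by rw [hbr, hge, hgb]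
      _ = mulF (mulF (br V b') (br V a)) g := (mulF_assoc _ _ _).symm
      _ = 0 := by rw [← h1, mulF_zero_left]

end tools

section fcs

variable {V₀ G : Type} [CommGroup V₀] [Finite V₀] [Group G] [Finite G]
  {M : Ideal (integralClosure ℤ ℂ)} [M.IsMaximal]

/-- the sum of `fc` against a character -/
theorem sum_fc (B : Bk (FF M) V₀ G) (W : Subgroup V₀) (x : V₀) [Fintype (B.C W)] {χ : G → ℂ}
    (hs : ∀ g, g ∉ B.C W → χ g = 0) (hχ : (fun t : B.C W => χ t) ∈ Irr (B.C W)) :
    ∑ᶠ g, fc B W x g * χ g =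
      (Nat.card (B.C (W ⊔ Subgroup.zpowers x)) : ℂ)⁻¹ * ((Fintype.card (B.C W) : ℂ) *
        ∑ s : B.C W, bh B (W ⊔ Subgroup.zpowers x) s * χ (B.i x * s)) := by
  classical
  rw [SO.H33.sum_supp B W hs]
  set E : B.C W → ℂ := fun s => bh B (W ⊔ Subgroup.zpowers x) s with hE
  set ψ : B.C W → ℂ := fun t => χ t with hψ
  set y : B.C W := ⟨B.i x, SO.H33.i_mem_C B W x⟩ with hy
  have e1 : ∀ t : B.C W, fc B W x t =
      (Nat.card (B.C (W ⊔ Subgroup.zpowers x)) : ℂ)⁻¹ * ∑ z : B.C W, E (y⁻¹ * (z⁻¹ * t * z)) := by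
    intro t
    unfold fc
    rw [finsum_eq_sum_of_fintype]
    rfl
  have e0 : ∑ t : B.C W, fc B W x t * χ t =
      ∑ t : B.C W, ((Nat.card (B.C (W ⊔ Subgroup.zpowers x)) : ℂ)⁻¹ *
        ∑ z : B.C W, E (y⁻¹ * (z⁻¹ * t * z))) * ψ t :=
    Finset.sum_congr rfl fun t _ => by rw [e1 t]
  rw [e0]
  simp_rw [mul_assoc, ← Finset.mul_sum, Finset.sum_mul]
  rw [Finset.sum_comm]
  have e2 : ∀ z : B.C W, ∑ t, E (y⁻¹ * (z⁻¹ * (t * z))) * ψ t = ∑ s, E s * ψ (y * s) := by
    intro z
    have e3 : ∀ s : B.C W, ψ (y * s) = ψ (z * (y * s) * z⁻¹) := fun s =>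
      (irr_conj hχ _ _).symm
    rw [← Equiv.sum_comp ((Equiv.mulLeft y).trans (MulAut.conj z).toEquiv)]
    refine Finset.sum_congr rfl fun s _ => ?_
    show E (y⁻¹ * (z⁻¹ * (z * (y * s) * z⁻¹ * z))) * ψ (z * (y * s) * z⁻¹) = _
    rw [← e3 s]
    congr 2
    group
  rw [Finset.sum_congr rfl fun z _ => e2 z, Finset.sum_const, Finset.card_univ, nsmul_eq_mul]
  rfl

end fcs

/-- FCD -/
theorem fcd (smg : T3.SmgStmt) : FcdStmt := by
  intro ℓ _ M _ hM V₀ G _ _ _ _ E₀ hFq B hB W
  classical
  have hF : GoodF ℓ (FF M) := H50.fld ℓ Fact.out M hM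
  have hfin : Fintype (B.C W) := Fintype.ofFinite _
  have hp : Nat.Prime ℓ := Fact.out
  have main : ∀ χ : G → ℂ, (∀ x, x ∉ B.C W → χ x = 0) → (fun t : B.C W => χ t) ∈ Irr (B.C W) →
      χ ∉ Ch B W → ∀ x, SO.cv (fc B W x) χ = 0 := by
    intro χ hs hχ hCh x
    have hnb : (fun t : B.C W => χ t) ∉ IrrE M (fun t : B.C W => B.b W t) :=
      fun h => hCh ⟨hs, h⟩
    unfold SO.cv
    rw [sum_fc B W x hs hχ]
    have key : ∑ s : B.C W, bh B (W ⊔ Subgroup.zpowers x) s * χ (B.i x * s) = 0 := by
      by_cases hx : x ∈ W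
      · have h1 : W ⊔ Subgroup.zpowers x = W := sup_eq_left.2 (Subgroup.zpowers_le.2 hx)
        rw [h1]
        have h2 : ∀ s : B.C W, bh B W s = eh M (fun t : B.C W => B.b W t) s :=
          fun s => SO.H33.bh_W B W s
        simp_rw [h2]
        have h3 := SO.H33.sum_cent_mul (eh M (fun t : B.C W => B.b W t)) hχ
          (SO.H33.jW_cen B W hx) 1
        simp only [one_mul] at h3
        rw [H25.eh_chv M _ hχ, if_neg hnb, mul_zero] at h3
        exact h3
      · -- the group `H = C W`
        set W' : Subgroup V₀ := W ⊔ Subgroup.zpowers x with hW'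
        set y : B.C W := ⟨B.i x, SO.H33.i_mem_C B W x⟩ with hy
        have hVX := SO.H33.i_le_C B W
        have hCX := SO.H33.C_top_le B W
        have hmem : ∀ t : B.C W, t ∈ Cu y ↔ (t : G) ∈ B.C W' := by
          intro t
          rw [Subgroup.mem_centralizer_singleton_iff]
          constructor
          · intro h
            have h1 : (t : G) * B.i x = B.i x * t := congrArg Subtype.val h
            have h2 : W' ≤ (Subgroup.centralizer {(t : G)}).comap B.i := by
              rw [hW', sup_le_iff, Subgroup.zpowers_le]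
              constructor
              · intro w hw
                rw [Subgroup.mem_comap, Subgroup.mem_centralizer_singleton_iff]
                exact (SO.H33.mem_C B).1 t.2 w hw
              · rw [Subgroup.mem_comap, Subgroup.mem_centralizer_singleton_iff]
                exact h1.symm
            rw [SO.H33.mem_C B]
            intro w hw
            have h3 := h2 hw
            rw [Subgroup.mem_comap, Subgroup.mem_centralizer_singleton_iff] at h3
            exact h3
          · intro h
            apply Subtype.ext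
            have h1 := (SO.H33.mem_C B).1 h x
              (hW' ▸ (le_sup_right (a := W) (Subgroup.mem_zpowers x)))
            exact h1.symm
        have hle : B.C W' ≤ B.C W := SO.H3.C_anti B le_sup_left
        let φ : Cu y ≃* B.C W' :=
          { toFun := fun t => ⟨((t : B.C W) : G), (hmem t).1 t.2⟩
            invFun := fun t => ⟨⟨(t : G), hle t.2⟩, (hmem ⟨(t : G), hle t.2⟩).2 t.2⟩
            left_inv := fun _ => rfl
            right_inv := fun _ => rfl
            map_mul' := fun _ _ => rfl }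
        have hlb := hB.lb W'
        have hblk : IsBlk (fun t : B.C W' => B.b W' t) := hlb.blk.blk
        have hb' : Bx (Cu y) (fun t : B.C W => B.b W' t) := by
          refine ⟨fun t ht => hlb.blk.supp t (fun h => ht ((hmem t).2 h)), ?_⟩
          exact H20.IsBlk_equiv φ hblk
        have hyV : y ∈ B.i.range.subgroupOf (B.C W) := ⟨x, rfl⟩
        have hVp : IsPGroup ℓ (B.i.range.subgroupOf (B.C W)) :=
          hB.ld.tp.pg.of_equiv (Subgroup.subgroupOfEquivOfLe hVX).symm
        have hVy : B.i.range.subgroupOf (B.C W) ≤ Cu y := by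
          intro t ht
          rw [Subgroup.mem_centralizer_singleton_iff]
          apply Subtype.ext
          exact hB.ld.ab t ht _ ⟨x, rfl⟩
        have hy1 : y ≠ 1 := by
          intro h
          apply hx
          have h1 : B.i x = 1 := congrArg Subtype.val h
          have h2 : x = 1 := hB.inj (by rw [h1, map_one])
          rw [h2]
          exact W.one_mem
        have hyEl : El ℓ y := T3.H88.el_of_mem hVp hyV
        have hg0 : (fun t : B.C W => B.g t) ≠ 0 := by
          intro h
          apply hB.ld.gam.ne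
          funext t
          by_cases ht : t ∈ Subgroup.centralizer (B.i.range : Set G)
          · exact congrFun h ⟨t, hCX ht⟩
          · exact hB.ld.gam.supp t ht
        have hund := und_of hF hVp hyV hVy (hB.lb W).blk.blk.1 hb'
          (gam_H hVX hCX (hB.lb W).gam) (gam_H hVX hCX hlb.gam) hg0
        have h5 := (smg ℓ M hM (B.C W) y 1 hy1 hyEl (Subgroup.one_mem _) H25.reg_one
          (fun t : Cu y => B.b W' ((t : B.C W) : G)) hb'.ix.idem
          (fun t : B.C W => B.b W t) (hB.lb W).blk.blk.1).1 hund _ hχ hnb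
        rw [mul_one] at h5
        unfold gbv at h5
        have h6 : ∀ s : Cu y, bh B W' ((s : B.C W) : G) =
            eh M (fun t : Cu y => B.b W' ((t : B.C W) : G)) s := by
          intro s
          have h7 := T3.H62.eh_equiv (M := M) φ.symm (b := fun t : B.C W' => B.b W' t)
            hblk.1.1 (φ s)
          have h8 : bh B W' ((s : B.C W) : G) = eh M (fun t : B.C W' => B.b W' t) (φ s) :=
            SO.H33.bh_W B W' (φ s)
          rw [h8, ← h7]
          rfl
        rw [← finsum_eq_sum_of_fintype,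
          H75.sum_sub (Cu y) (fun s : B.C W => bh B W' s * χ (B.i x * s)) (fun s hs' => by
            rw [SO.H3.bh_supp B W' (fun h => hs' ((hmem s).2 h)), zero_mul])]
        rw [← h5]
        refine finsum_congr fun s => ?_
        rw [h6 s]
        rfl
    rw [key, mul_zero, mul_zero, zero_div]
  refine ⟨main, ?_⟩
  intro c
  suffices hkey : mulF (fc B W c) (bh B W) = fc B W c by
    intro x
    exact congrFun hkey x
  apply eq_of_res (N := B.C W) (mulF_supp (B.C W) (SO.H3.fc_supp B W c)
    (fun x hx => SO.H3.bh_supp B W hx)) (SO.H3.fc_supp B W c)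
  rw [mulF_res (B.C W) _ (SO.H3.fc_supp B W c)]
  have hcl : ∀ (x y : B.C W), (fun t : B.C W => fc B W c t) (y * x * y⁻¹) =
      (fun t : B.C W => fc B W c t) x := fun x y => SO.H3.fc_cl B W c y x
  have hbcl : ∀ (x y : B.C W), (fun t : B.C W => bh B W t) (y * x * y⁻¹) =
      (fun t : B.C W => bh B W t) x := by
    intro x y
    show bh B W ((y * x * y⁻¹ : B.C W) : G) = bh B W (x : G)
    rw [SO.H33.bh_W, SO.H33.bh_W, K9.H25.eh_cl]
  have hm : mulF (fun t : B.C W => fc B W c t) (fun t : B.C W => bh B W t) =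
      fun y => ∑ h, (fun t : B.C W => fc B W c t) h * (fun t : B.C W => bh B W t) (h⁻¹ * y) := by
    funext y
    unfold mulF
    rw [finsum_eq_sum_of_fintype]
  rw [hm, ← sub_eq_zero]
  apply irr_complete
  · intro g h
    rw [Pi.sub_apply, Pi.sub_apply]
    congr 1
    · rw [← Equiv.sum_comp (MulAut.conj h).toEquiv]
      refine Finset.sum_congr rfl fun t _ => ?_
      have e1 : (MulAut.conj h).toEquiv t = h * t * h⁻¹ := rfl
      rw [e1]
      congr 1
      · exact hcl t h
      · have e2 : (h * t * h⁻¹)⁻¹ * (h * g * h⁻¹) = h * (t⁻¹ * g) * h⁻¹ := by group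
        rw [e2]
        exact hbcl (t⁻¹ * g) h
    · exact hcl g h
  · intro χ' hχ'
    set χ : G → ℂ := H75.ext0 (B.C W) χ' with hχ
    have hχs : ∀ x, x ∉ B.C W → χ x = 0 := H75.ext0_supp _ _
    have hχr : (fun t : B.C W => χ t) = χ' := funext (H75.ext0_apply _ _)
    have hχi : (fun t : B.C W => χ t) ∈ Irr (B.C W) := by rw [hχr]; exact hχ'
    have hne : χ' 1 ≠ 0 := irr_one_ne hχ'
    have hcv : SO.cv (fc B W c) χ = H50.om (fun t : B.C W => fc B W c t) χ' := by
      rw [SO.H3.cv_eq, hχr]
    have hmul := H50.om_mul (a := fun t : B.C W => fc B W c t)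
      (b := fun t : B.C W => bh B W t) hbcl hχ'
    have hom : ∀ a : B.C W → ℂ, ∑ t, a t * χ' t = H50.om a χ' * χ' 1 := by
      intro a
      unfold H50.om
      rw [div_mul_cancel₀ _ hne]
    have hbval : H50.om (fun t : B.C W => bh B W t) χ' =
        if χ' ∈ IrrE M (fun t : B.C W => B.b W t) then 1 else 0 := by
      have h2 : (fun t : B.C W => bh B W t) = eh M (fun t : B.C W => B.b W t) :=
        funext fun s => SO.H33.bh_W B W s
      rw [h2]
      unfold H50.om
      rw [H25.eh_chv M _ hχ']
      split_ifs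
      · exact div_self hne
      · exact zero_div _
    have hval : H50.om (fun t : B.C W => fc B W c t) χ' *
        H50.om (fun t : B.C W => bh B W t) χ' = H50.om (fun t : B.C W => fc B W c t) χ' := by
      rw [hbval]
      split_ifs with hin
      · rw [mul_one]
      · rw [← hcv, main χ hχs hχi (fun h => hin (hχr ▸ h.2)) c, zero_mul]
    simp only [Pi.sub_apply, sub_mul, Finset.sum_sub_distrib]
    rw [sub_eq_zero]
    have e1 : ∑ x : B.C W, (∑ h : B.C W, fc B W c (h : G) *
          bh B W ((h⁻¹ * x : B.C W) : G)) * χ' x =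
        H50.om (fun t : B.C W => fc B W c t) χ' * H50.om (fun t : B.C W => bh B W t) χ' *
          χ' 1 := by
      rw [← hmul, ← hom]
    have e2 : ∑ x : B.C W, fc B W c (x : G) * χ' x =
        H50.om (fun t : B.C W => fc B W c t) χ' * χ' 1 := by
      rw [← hom]
    rw [e1, e2, hval]

end Pool.Agent.PP.SD.H79
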